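import Pool.Agent.Y140.AW.Stm2
import Pool.Agent.Y421.AW.Int

/-!
# Project AW2, INT2 (helper543)

The proof of `Pool.Agent.Y421.AW.t_int` (helper421) with two polynomials.
-/

set_option autoImplicit false

open Polynomial

namespace Pool.Agent.Y543.AW2

open Pool.Agent.Y140.AW Pool.Agent.Y421.AW

/-- the points have coordinates in the valuation rings -/
theorem key2 (h : St_res) (p : ℕ) [Fact p.Prime] (K N : Type) [Field K] [CharP K p] [Field N]
    [IsAlgClosed N] [Algebra K N] (Θ : K[X][X]) (D₀ D₁ D : K[X]) (d B m : ℕ) (hD : DD Θ D₀ d)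
    (hB : BB Θ B m) (hDD : D = (D₀ * D₁) ^ 4) (ν : Fin m → N) (s a b : N) (hpt : IsPt Θ D p B ν s a b)
    (A : Subalgebra K N) (hs : s ∈ A) (hν : ∀ i, ν i ∈ A) (V : ValuationSubring N)
    (hA : ∀ y ∈ A, y ∈ V) :
    a ∈ V ∧ b ∈ V ∧ (aeval a D)⁻¹ ∈ V ∧ tZ Θ a b ∈ V ∧ (tZ Θ a b)⁻¹ ∈ V := by
  obtain ⟨hp1, hp2, hp3⟩ := hpt
  have hprime : p.Prime := Fact.out
  have : CharP N p := charP_of_injective_algebraMap (algebraMap K N).injective p
  obtain ⟨v, hv⟩ : ∃ v, v = V.valuation := ⟨_, rfl⟩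
  have hle : ∀ y, v y ≤ 1 ↔ y ∈ V := fun y => by rw [hv]; exact V.valuation_le_one_iff y
  have hK : ∀ c : K, v (algebraMap K N c) ≤ 1 := fun c => (hle _).2 (hA _ (A.algebraMap_mem c))
  have htriv : v.IsTrivialOn K := ⟨fun c hc => by
    refine le_antisymm (hK c) ?_
    have h1 : v (algebraMap K N c) * v (algebraMap K N c⁻¹) = 1 := by
      rw [← map_mul, ← map_mul, mul_inv_cancel₀ hc, map_one, map_one]
    calc (1 : V.ValueGroup) = v (algebraMap K N c) * v (algebraMap K N c⁻¹) := h1.symm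
      _ ≤ v (algebraMap K N c) * 1 := mul_le_mul_right (hK c⁻¹) _
      _ = v (algebraMap K N c) := mul_one _⟩
  have hs1 : v s ≤ 1 := (hle _).2 (hA _ hs)
  have hν1 : ∀ i, v (ν i) ≤ 1 := fun i => (hle _).2 (hA _ (hν i))
  obtain ⟨Da, hDa⟩ : ∃ Da, Da = aeval a D := ⟨_, rfl⟩
  rw [← hDa] at hp2 hp3 ⊢
  obtain ⟨E, hE⟩ : ∃ E, E = a + a ^ (B * p) + ∑ i : Fin m, ν i * a ^ (p * (i : ℕ)) := ⟨_, rfl⟩
  have hg : Da ^ p * E + 1 = s * (Da * b) ^ p := by
    rw [← hp3, GG]
    simp only [eval_add, eval_mul, eval_pow, eval_X, eval_one, eval_finsetSum, eval_C,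
      eval_map_algebraMap, ← hDa]
    rw [add_pow_char, one_pow, hE, mul_pow, ← pow_mul]
    ring
  have hmon : (tA Θ a).Monic := hD.monic.map _
  have hdeg : (tA Θ a).natDegree = d := by
    rw [tA, hD.monic.natDegree_map, hD.deg]
  have hcoeff : ∀ k, (tA Θ a).coeff k = aeval a (Θ.coeff k) := fun k => by
    rw [tA, coeff_map]
    rfl
  have hp0 : p ≠ 0 := hprime.ne_zero
  -- the first coordinate
  have ha : v a ≤ 1 := by
    by_contra hcon
    have hα : 1 < v a := not_le.1 hcon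
    have hα0 : 0 < v a := lt_trans zero_lt_one hα
    have hpoly : ∀ f : K[X], f ≠ 0 → v (aeval a f) = v a ^ f.natDegree := fun f hf =>
      valuation_aeval_eq_valuation_X_pow_natDegree_of_one_lt_valuation_X a hα hf
    have hD0 : D ≠ 0 := by
      rintro rfl
      exact hp2 (by rw [hDa, map_zero])
    have hvD : v Da = v a ^ D.natDegree := by rw [hDa]; exact hpoly D hD0
    have hBp : 1 < B * p := by
      have h1 := hB.one
      have h2 := hprime.two_le
      nlinarith
    have hsum : v (a + ∑ i : Fin m, ν i * a ^ (p * (i : ℕ))) < v a ^ (B * p) := by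
      refine v.map_add_lt ?_ ?_
      · calc v a = v a ^ 1 := (pow_one _).symm
          _ < v a ^ (B * p) := pow_lt_pow_right₀ hα hBp
      · refine v.map_sum_lt (pow_pos hα0 _).ne' fun i _ => ?_
        rw [map_mul, map_pow]
        calc v (ν i) * v a ^ (p * (i : ℕ)) ≤ 1 * v a ^ (p * (i : ℕ)) := mul_le_mul_left (hν1 i) _
          _ = v a ^ (p * (i : ℕ)) := one_mul _
          _ < v a ^ (B * p) := by
              refine pow_lt_pow_right₀ hα ?_
              rw [mul_comm B p]
              exact Nat.mul_lt_mul_of_pos_left (i.2.trans_le hB.m) hprime.pos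
    have hvE : v E = v a ^ (B * p) := by
      have h1 : E = (a + ∑ i : Fin m, ν i * a ^ (p * (i : ℕ))) + a ^ (B * p) := by
        rw [hE]
        ring
      rw [h1, Valuation.map_add_eq_of_lt_right _ (by rw [map_pow]; exact hsum), map_pow]
    have hvg : v (Da ^ p * E + 1) = (v a ^ D.natDegree * v a ^ B) ^ p := by
      have h1 : v (Da ^ p * E) = (v a ^ D.natDegree * v a ^ B) ^ p := by
        rw [map_mul, map_pow, hvD, hvE, mul_pow, pow_mul]
      rw [Valuation.map_add_eq_of_lt_left _ ?_, h1]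
      rw [h1, map_one]
      refine one_lt_pow₀ ?_ hp0
      rw [← pow_add]
      exact one_lt_pow₀ hα (by have := hB.one; omega)
    have hvr : v (s * (Da * b) ^ p) ≤ (v a ^ D.natDegree * v b) ^ p := by
      rw [map_mul, map_pow, map_mul, hvD]
      exact mul_le_of_le_one_left' hs1
    rw [← hg, hvg] at hvr
    have h2 : v a ^ D.natDegree * v a ^ B ≤ v a ^ D.natDegree * v b :=
      (pow_le_pow_iff_left₀ zero_le zero_le hp0).1 hvr
    have h3 : v a ^ B ≤ v b := (mul_le_mul_iff_right₀ (pow_pos hα0 _)).1 h2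
    have h4 : v b ≤ v a ^ (B - 1) := by
      refine root_bound v (tA Θ a) hmon _ (one_le_pow₀ hα.le) (fun k _ => ?_) b hp1
      rw [hcoeff]
      by_cases h0 : Θ.coeff k = 0
      · rw [h0, map_zero, map_zero]
        exact zero_le
      · rw [hpoly _ h0]
        exact pow_le_pow_right₀ hα.le (by have := hB.coeff k; omega)
    have h5 : v a ^ (B - 1) < v a ^ B := pow_lt_pow_right₀ hα (by have := hB.one; omega)
    exact lt_irrefl _ (h5.trans_le (h3.trans h4))
  have haev : ∀ f : K[X], v (aeval a f) ≤ 1 := by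
    intro f
    have h1 := eval_le_one v (f.map (algebraMap K N)) (fun k => by
      rw [coeff_map]
      exact hK _) ha
    rwa [eval_map_algebraMap] at h1
  have hroot : ∀ c : N, (tA Θ a).eval c = 0 → v c ≤ 1 := fun c hc =>
    root_bound v (tA Θ a) hmon 1 le_rfl (fun k _ => by rw [hcoeff]; exact haev _) c hc
  have hb := hroot b hp1
  have hvDa : v Da = 1 := by
    refine le_antisymm (by rw [hDa]; exact haev _) ?_
    by_contra hcon
    have hlt : v Da < 1 := not_le.1 hcon
    have hltp : v Da ^ p < 1 := pow_lt_one₀ zero_le hlt hp0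
    have hE1 : v E ≤ 1 := by
      rw [hE]
      refine v.map_add_le (v.map_add_le ha ?_) (v.map_sum_le fun i _ => ?_)
      · rw [map_pow]
        exact pow_le_one' ha _
      · rw [map_mul, map_pow]
        exact mul_le_one' (hν1 i) (pow_le_one' ha _)
    have h1 : v (Da ^ p * E) < 1 := by
      rw [map_mul, map_pow]
      exact lt_of_le_of_lt (mul_le_of_le_one_right' hE1) hltp
    have h2 : v (Da ^ p * E + 1) = 1 := by
      rw [add_comm]
      exact v.map_one_add_of_lt h1
    have h3 : v (s * (Da * b) ^ p) < 1 := by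
      rw [map_mul, map_pow, map_mul]
      refine lt_of_le_of_lt ((mul_le_of_le_one_left' hs1).trans ?_) hltp
      exact pow_le_pow_left₀ zero_le (mul_le_of_le_one_right' hb) p
    rw [hg] at h2
    exact h3.ne h2
  have htZ : ∀ c : N, (tA Θ a).eval c = 0 → v (tZ Θ a c) ≤ 1 := by
    intro c hc
    refine eval_le_one v _ (fun k => ?_) (hroot c hc)
    rw [coeff_derivative, map_mul, hcoeff]
    refine mul_le_one' (haev _) ((hle _).2 ?_)
    have h1 : ((k : N) + 1) = ((k + 1 : ℕ) : N) := by push_cast; rfl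
    rw [h1]
    exact natCast_mem V _
  have hD0a : v (aeval a D₀) = 1 := by
    refine le_antisymm (haev _) ?_
    by_contra hcon
    have h0 : v (aeval a (D₀ * D₁)) < 1 := by
      rw [map_mul, map_mul]
      exact lt_of_le_of_lt (mul_le_of_le_one_right' (haev _)) (not_le.1 hcon)
    have h1 := pow_lt_one₀ zero_le h0 (n := 4) (by norm_num)
    rw [← map_pow, ← map_pow, ← hDD, ← hDa, hvDa] at h1
    exact lt_irrefl _ h1
  have hD0ne : aeval a D₀ ≠ 0 := by
    intro h0
    rw [h0, map_zero] at hD0a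
    exact zero_ne_one hD0a
  obtain ⟨c, -, hc2, hc3⟩ := h K N Θ D₀ d hD a hD0ne
  obtain ⟨j, hj⟩ := (hc2 b).1 hp1
  have hci : ∀ i, v (tZ Θ a (c i)) ≤ 1 := fun i => htZ _ ((hc2 _).2 ⟨i, rfl⟩)
  have htZb : v (tZ Θ a b) = 1 := by
    refine le_antisymm (htZ b hp1) ?_
    have h1 : v (∏ i, tZ Θ a (c i)) = 1 := by rw [hc3, hD0a]
    rw [← Finset.mul_prod_erase Finset.univ _ (Finset.mem_univ j), map_mul, ← hj] at h1
    have h2 : v (∏ i ∈ Finset.univ.erase j, tZ Θ a (c i)) ≤ 1 := by
      rw [map_prod]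
      exact Finset.prod_le_one' fun i _ => hci i
    calc (1 : V.ValueGroup) = v (tZ Θ a b) * v (∏ i ∈ Finset.univ.erase j, tZ Θ a (c i)) :=
          h1.symm
      _ ≤ v (tZ Θ a b) := mul_le_of_le_one_right' h2
  refine ⟨(hle _).1 ha, (hle _).1 hb, (hle _).1 ?_, (hle _).1 htZb.le, (hle _).1 ?_⟩
  · rw [map_inv₀, hvDa, inv_one]
  · rw [map_inv₀, htZb, inv_one]

theorem t_int2 (h : St_res) : St_int2 := by
  intro p _ K N _ _ _ _ _ Θ D₀ D₁ D d B m hD hB _ hDD ν s a b hpt A hs hν
  have hk := key2 h p K N Θ D₀ D₁ D d B m hD hB hDD ν s a b hpt A hs hν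
  exact ⟨int_of_val A _ fun V hV => (hk V hV).1, int_of_val A _ fun V hV => (hk V hV).2.1,
    int_of_val A _ fun V hV => (hk V hV).2.2.1, int_of_val A _ fun V hV => (hk V hV).2.2.2.1,
    int_of_val A _ fun V hV => (hk V hV).2.2.2.2⟩

end Pool.Agent.Y543.AW2
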