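import Pool.Agent.Y140.AW.Stm2
import Pool.Agent.Y921.AW.Pts

/-!
# Project AW2, PTS2 (helper543)

The proof of `Pool.Agent.Y921.AW.t_pts` (helper921) with two polynomials.
-/

set_option autoImplicit false

namespace Pool.Agent.Y543.AW2

open Polynomial Pool.Agent.Y140.AW Pool.Agent.Y921.AW

/-- AW2-PTS2 -/
theorem t_pts2 (h : St_res) : St_pts2 := by
  intro p _ K N _ _ _ _ _ Θ D₀ D₁ D d B m hDD hBB hD₁ hDD₀ ν s hs
  have : CharP N p := charP_of_injective_algebraMap (algebraMap K N).injective p
  have hp0 : p ≠ 0 := (Fact.out : p.Prime).ne_zero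
  have hD0 : D ≠ 0 := by
    rw [hDD₀]
    exact pow_ne_zero _ (mul_ne_zero hDD.ne hD₁)
  set P := PP Θ D p B d ν s with hP
  obtain ⟨hPd, hPl⟩ := PP_deg (p := p) hD0 hDD.monic hDD.deg hBB.one hBB.m hBB.coeff ν s
  rw [← hP] at hPd hPl
  have hlc : (algebraMap K N D.leadingCoeff) ^ (p * d) ≠ 0 := by
    refine pow_ne_zero _ fun h0 => ?_
    rw [map_eq_zero] at h0
    exact hD0 (leadingCoeff_eq_zero.1 h0)
  have hP0 : P ≠ 0 := by
    intro h0
    rw [h0, leadingCoeff_zero] at hPl
    exact hlc hPl.symm
  -- points are roots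
  have hroot : ∀ a b, IsPt Θ D p B ν s a b → P.eval a = 0 := by
    rintro a b ⟨h1, -, h3⟩
    rw [hP, PP_eval_pt hDD.deg ν h3, h1, zero_pow hp0, mul_zero]
  -- roots are points
  have hpt : ∀ a, P.eval a = 0 → ∃ b, IsPt Θ D p B ν s a b := by
    intro a ha
    have hDa : aeval a D ≠ 0 := by
      intro h0
      have h1 : (GG D p B ν).eval a = 1 := by
        unfold GG
        simp only [eval_add, eval_mul, eval_pow, eval_X, eval_map_algebraMap, h0, zero_pow hp0,
          mul_zero, zero_mul, zero_add, eval_one, one_pow, add_zero]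
      have h2 : P.eval a = 1 := by
        rw [hP, PP_eval, h1, h0, zero_pow hp0, mul_zero, Finset.sum_range_succ,
          Finset.sum_eq_zero, zero_add, Nat.sub_self, pow_zero, mul_one, one_pow, mul_one]
        · have h3 : Θ.coeff d = 1 := by
            rw [← hDD.deg]
            exact hDD.monic
          rw [h3, map_one, one_pow]
        · intro k hk
          have := Finset.mem_range.1 hk
          rw [zero_pow (by omega), mul_zero]
      rw [h2] at ha
      exact one_ne_zero ha
    obtain ⟨b, hb⟩ := IsAlgClosed.exists_pow_nat_eq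
      ((GG D p B ν).eval a / (s * (aeval a D) ^ p)) (Nat.pos_of_ne_zero hp0)
    have hsD : s * (aeval a D) ^ p ≠ 0 := mul_ne_zero hs (pow_ne_zero _ hDa)
    have hg : (GG D p B ν).eval a = s * (aeval a D * b) ^ p := by
      rw [mul_pow, hb, ← mul_assoc, mul_div_cancel₀ _ hsD]
    refine ⟨b, ?_, hDa, hg⟩
    rw [hP, PP_eval_pt hDD.deg ν hg] at ha
    exact pow_eq_zero_iff hp0 |>.1 ((mul_eq_zero.1 ha).resolve_left (pow_ne_zero _ hsD))
  -- the derivative
  have hder : ∀ a b, IsPt Θ D p B ν s a b → (derivative P).eval a =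
      (aeval a D) ^ p * (s * (aeval a D) ^ p) ^ (d - 1) * (tZ Θ a b) ^ p := by
    rintro a b ⟨-, -, h3⟩
    rw [hP]
    exact PP_der_eval hDD.deg hDD.pos ν h3
  have hder0 : ∀ a, P.eval a = 0 → (derivative P).eval a ≠ 0 := by
    intro a ha
    obtain ⟨b, hb⟩ := hpt a ha
    rw [hder a b hb]
    have hDa := hb.2.1
    refine mul_ne_zero (mul_ne_zero (pow_ne_zero _ hDa) (pow_ne_zero _
      (mul_ne_zero hs (pow_ne_zero _ hDa)))) (pow_ne_zero _ ?_)
    have hD₀a : aeval a D₀ ≠ 0 := by
      intro h0
      apply hDa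
      rw [hDD₀, map_pow, map_mul, h0, zero_mul, zero_pow (by norm_num)]
    obtain ⟨β, -, hβ, hprod⟩ := h K N Θ D₀ d hDD a hD₀a
    obtain ⟨i, hi⟩ := (hβ b).1 hb.1
    rw [hi]
    intro h0
    rw [← hprod] at hD₀a
    exact hD₀a (Finset.prod_eq_zero (Finset.mem_univ i) h0)
  -- the roots
  classical
  have hnodup : P.roots.Nodup := by
    rw [Multiset.nodup_iff_count_le_one]
    intro a
    rw [count_roots]
    by_contra hcon
    push Not at hcon
    have h1 : P.IsRoot a := by
      by_contra h2
      rw [rootMultiplicity_eq_zero h2] at hcon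
      omega
    exact hder0 a h1 ((one_lt_rootMultiplicity_iff_isRoot hP0).1 hcon).2
  have hcard : P.roots.toFinset.card = d * (p * (B + D.natDegree)) := by
    rw [Multiset.toFinset_card_of_nodup hnodup, ← hPd]
    exact (IsAlgClosed.splits P).natDegree_eq_card_roots.symm
  set e := (Finset.equivFinOfCardEq hcard) with he
  set x : Fin (d * (p * (B + D.natDegree))) → N := fun l => ((e.symm l : P.roots.toFinset) : N)
    with hx
  have hxinj : Function.Injective x := fun i j hij => e.symm.injective (Subtype.ext hij)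
  have hxroot : ∀ l, P.eval (x l) = 0 := by
    intro l
    have h1 := (e.symm l).2
    rw [Multiset.mem_toFinset, mem_roots hP0] at h1
    exact h1
  have hxall : ∀ a, P.eval a = 0 → ∃ l, a = x l := by
    intro a ha
    have h1 : a ∈ P.roots.toFinset := by
      rw [Multiset.mem_toFinset, mem_roots hP0]
      exact ha
    refine ⟨e ⟨a, h1⟩, ?_⟩
    simp only [hx, Equiv.symm_apply_apply]
  choose θ hθ using fun l => hpt (x l) (hxroot l)
  have hnodal : P = C ((algebraMap K N D.leadingCoeff) ^ (p * d)) *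
      Lagrange.nodal Finset.univ x := by
    have h1 := (IsAlgClosed.splits P).eq_prod_roots
    rw [hPl] at h1
    rw [h1]
    congr 1
    have h2 : P.roots = (Finset.univ : Finset (Fin (d * (p * (B + D.natDegree))))).val.map x := by
      have h3 : P.roots = P.roots.toFinset.val := by
        rw [Multiset.toFinset_val, hnodup.dedup]
      have h4 : P.roots.toFinset = Finset.univ.image x := by
        ext a
        rw [Multiset.mem_toFinset, mem_roots hP0, Finset.mem_image]
        constructor
        · intro ha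
          obtain ⟨l, hl⟩ := hxall a ha
          exact ⟨l, Finset.mem_univ _, hl.symm⟩
        · rintro ⟨l, -, rfl⟩
          exact hxroot l
      rw [h3, h4, Finset.image_val_of_injOn hxinj.injOn]
    rw [h2, Multiset.map_map]
    rfl
  refine ⟨x, θ, hxinj, hθ, ?_, ?_⟩
  · intro a b hab
    obtain ⟨l, hl⟩ := hxall a (hroot a b hab)
    refine ⟨l, hl, ?_⟩
    subst hl
    have h1 := hab.2.2
    rw [(hθ l).2.2] at h1
    have h2 := mul_left_cancel₀ hs h1
    have h3 := frobenius_inj N p h2
    exact (mul_left_cancel₀ hab.2.1 h3).symm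
  · intro l
    rw [← hder (x l) (θ l) (hθ l)]
    conv_rhs => rw [hnodal]
    rw [derivative_C_mul, eval_mul, eval_C,
      Lagrange.eval_nodal_derivative_eval_node_eq (Finset.mem_univ l), Lagrange.eval_nodal]

end Pool.Agent.Y543.AW2
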