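import Pool.Agent.Y140.AW.Stm2
import Pool.Agent.Y761.AW.Step
import Pool.Agent.Y236.AW.Tuple

/-!
# Project AW2, STEP2 and TUPLE2 (helper543)

The proofs of `Pool.Agent.Y761.AW.t_step` (helper761) and `Pool.Agent.Y236.AW.t_tuple` (helper236)
without the assumption that the field is infinite.
-/

set_option autoImplicit false

namespace Pool.Agent.Y543.AW2

open Pool.Agent.Y241.WR Pool.Agent.Y140.AW Polynomial Pool.Agent.Y761.AW Pool.Agent.Y236.AW

theorem t_step2 : St_step2 := by
  intro K E N _ _ _ _ _ _ _ _ _ _ hreg _ F φ ψ hφ hψ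
  let _ : Algebra E N := ψ.toRingHom.toAlgebra
  let _ : Algebra (RatFunc K) N := (ψ.toRingHom.comp (algebraMap (RatFunc K) E)).toAlgebra
  have hψ' : ∀ z, algebraMap E N z = ψ z := fun _ => rfl
  have t1 : IsScalarTower (RatFunc K) E N := .of_algebraMap_eq fun _ => rfl
  have t2 : IsScalarTower K E N := .of_algebraMap_eq fun x => (ψ.commutes x).symm
  have t3 : IsScalarTower K (RatFunc K) N := by
    refine .of_algebraMap_eq fun x => ?_
    rw [IsScalarTower.algebraMap_apply K E N, IsScalarTower.algebraMap_apply (RatFunc K) E N,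
      ← IsScalarTower.algebraMap_apply K (RatFunc K) E]
  obtain ⟨τ₀, hτ₀⟩ := move _ _ hφ hψ
  -- the two embeddings agree on `K(x)`
  have hag : ∀ r : RatFunc K, τ₀ (φ (algebraMap (RatFunc K) E r)) = algebraMap (RatFunc K) N r := by
    let a1 : RatFunc K →ₐ[K] N := ((τ₀.restrictScalars K : N ≃ₐ[K] N) : N →ₐ[K] N).comp
      (φ.comp (IsScalarTower.toAlgHom K (RatFunc K) E))
    let a2 : RatFunc K →ₐ[K] N := IsScalarTower.toAlgHom K (RatFunc K) N
    have hX : a1 RatFunc.X = a2 RatFunc.X := hτ₀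
    have hp : ∀ q : K[X], a1 (algebraMap K[X] (RatFunc K) q) =
        a2 (algebraMap K[X] (RatFunc K) q) := by
      intro q
      have h1 : a1.comp (IsScalarTower.toAlgHom K K[X] (RatFunc K)) =
          a2.comp (IsScalarTower.toAlgHom K K[X] (RatFunc K)) := by
        apply Polynomial.algHom_ext
        change a1 (algebraMap K[X] (RatFunc K) X) = a2 (algebraMap K[X] (RatFunc K) X)
        rw [RatFunc.algebraMap_X]
        exact hX
      exact DFunLike.congr_fun h1 q
    intro r
    have h2 : a1 r = a2 r := by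
      rw [← RatFunc.num_div_denom r, map_div₀, map_div₀, hp, hp]
    exact h2
  let α : E →ₐ[RatFunc K] N := IsScalarTower.toAlgHom (RatFunc K) E N
  let β : E →ₐ[RatFunc K] N :=
    { toRingHom := (τ₀ : N →+* N).comp φ.toRingHom
      commutes' := hag }
  obtain ⟨σ, hσ⟩ := surj α β
  obtain ⟨γ, hγ⟩ : ∃ γ : E ≃ₐ[RatFunc K] E, γ = σ.restrictNormal E := ⟨_, rfl⟩
  have h1 : ∀ y, ψ (γ y) = τ₀ (φ y) := by
    intro y
    have h2 := AlgEquiv.restrictNormal_commutes σ E y
    rw [hγ]
    exact h2.trans (hσ y)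
  obtain ⟨τ₁, hτ₁⟩ := ext_gal_p (L := E) hreg F _ rfl hψ γ.symm
  refine ⟨τ₀.trans τ₁, fun y => ?_⟩
  rw [AlgEquiv.trans_apply, ← h1]
  have h3 := hτ₁ (γ y)
  rw [AlgEquiv.symm_apply_apply] at h3
  exact h3

theorem t_tuple2 (h : St_step2) : St_tuple2 := by
  intro K E N _ _ _ _ _ _ _ _ _ _ hreg htb F m
  induction m with
  | zero =>
    intro φ ψ _ _
    exact ⟨AlgEquiv.refl, fun j => j.elim0⟩
  | succ m ih =>
    intro φ ψ hφ hψ
    obtain ⟨τ, hτ⟩ := ih (fun j => φ j.castSucc) (fun j => ψ j.castSucc)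
      (hφ.comp _ (Fin.castSucc_injective m)) (hψ.comp _ (Fin.castSucc_injective m))
    set x : Fin (m + 1) → N := fun j => ψ j (algebraMap (RatFunc K) E RatFunc.X) with hx
    set x' : Fin (m + 1) → N := fun j => τ (φ j (algebraMap (RatFunc K) E RatFunc.X)) with hx'
    have hind' : AlgebraicIndependent F x' := by
      have := hφ.map' (f := τ.toAlgHom) τ.injective
      exact this
    set S : Set N := x '' (Set.range Fin.castSucc) with hS
    have hS' : S = x' '' (Set.range Fin.castSucc) := by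
      rw [hS]
      apply Set.image_congr
      rintro _ ⟨j, rfl⟩
      exact (hτ j _).symm
    have ht := trans_FF (F := F) (S := S) hψ hS
    have ht' := trans_FF (F := F) (S := S) hind' hS'
    set τK : N ≃ₐ[K] N := τ.restrictScalars K with hτK
    obtain ⟨τ', hτ'⟩ := h K E N hreg htb (FF F S) (τK.toAlgHom.comp (φ (Fin.last m)))
      (ψ (Fin.last m)) ht' ht
    refine ⟨AlgEquiv.ofRingEquiv (f := τ.toRingEquiv.trans τ'.toRingEquiv) ?_, ?_⟩
    · intro r
      have h1 : τ (algebraMap F N r) = algebraMap F N r := τ.commutes r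
      have h2 : τ' ((algebraMap F N r)) = algebraMap F N r := by
        have hm : (algebraMap F N r) ∈ FF F S := F_le r.2
        exact τ'.commutes ⟨_, hm⟩
      show τ' (τ (algebraMap F N r)) = algebraMap F N r
      rw [h1, h2]
    · intro j y
      show τ' (τ (φ j y)) = ψ j y
      induction j using Fin.lastCases with
      | last => exact hτ' y
      | cast j =>
        rw [hτ j y]
        have hm : ψ j.castSucc y ∈ FF F S := by
          refine emb_mem (ψ j.castSucc) ?_ y
          exact ⟨j.castSucc, ⟨j, rfl⟩, rfl⟩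
        exact τ'.commutes ⟨_, hm⟩

end Pool.Agent.Y543.AW2
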